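import Pool.Agent.Run7.h476.LP.Part

set_option autoImplicit false

/-!
Patterns `x, a_l(x) y + b_l(x)` in families of sets which contain almost all elements of one long
interval `[A, A ^ (1 + δ)]` at every scale.
-/

namespace Pool.Agent.Run7.h476.LS

open Finset
open Pool.Agent.Run7.h476.LP (one_of)

/-- the elements of `[A, A ^ (1 + δ)]` which are not in `V` -/
def excL (V : Set ℕ) (δ : ℝ) (A : ℕ) : Set ℕ :=
  {n : ℕ | A ≤ n ∧ (n : ℝ) ≤ (A : ℝ) ^ (1 + δ) ∧ n ∉ V}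

theorem excL_finite (V : Set ℕ) (δ : ℝ) (A : ℕ) : (excL V δ A).Finite := by
  refine (Set.finite_Iic ⌊(A : ℝ) ^ (1 + δ)⌋₊).subset ?_
  rintro n ⟨-, h, -⟩
  exact Nat.le_floor h

/-- two scales -/
theorem pairL {ι : Type*} [Fintype ι] (f g : ι → ℕ → ℕ) (V : Set ℕ) {A B Q : ℕ} {δ : ℝ}
    (hA : 0 < A) (hQ : ∀ l, ∀ x, A ≤ x → x ≤ 2 * A → 0 < f l x ∧ f l x ≤ Q ∧ g l x ≤ Q)
    (hA2 : (2 * A : ℝ) ≤ (A : ℝ) ^ (1 + δ)) (hB : 0 < B)
    (hB2 : (3 * Q * B : ℝ) ≤ (B : ℝ) ^ (1 + δ))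
    (eA : (excL V δ A).ncard ≤ A) (eB : Fintype.card ι * (excL V δ B).ncard ≤ B) :
    ∃ x y : ℕ, A ≤ x ∧ B ≤ y ∧ x ∈ V ∧ ∀ l, f l x * y + g l x ∈ V := by
  classical
  -- the first number
  obtain ⟨x, hx1, hx2, hxV⟩ : ∃ x, A ≤ x ∧ x ≤ 2 * A ∧ x ∈ V := by
    by_contra hcon
    push Not at hcon
    have hsub : (Finset.Icc A (2 * A) : Set ℕ) ⊆ excL V δ A := by
      intro n hn
      rw [Finset.mem_coe, Finset.mem_Icc] at hn
      refine ⟨hn.1, ?_, hcon n hn.1 hn.2⟩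
      have : (n : ℝ) ≤ 2 * A := by exact_mod_cast hn.2
      linarith
    have h1 := Set.ncard_le_ncard hsub (excL_finite V δ A)
    rw [Set.ncard_coe_finset, Nat.card_Icc] at h1
    omega
  -- the second number
  obtain ⟨y, hy1, hy2, hy⟩ : ∃ y, B ≤ y ∧ y ≤ 2 * B ∧ ∀ l, f l x * y + g l x ∈ V := by
    by_contra hcon
    push Not at hcon
    have hsub : Finset.Icc B (2 * B) ⊆ Finset.univ.biUnion fun l : ι =>
        (Finset.Icc B (2 * B)).filter fun y => f l x * y + g l x ∉ V := by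
      intro y hy
      have hy' := Finset.mem_Icc.1 hy
      obtain ⟨l, hl⟩ := hcon y hy'.1 hy'.2
      rw [Finset.mem_biUnion]
      exact ⟨l, Finset.mem_univ l, Finset.mem_filter.2 ⟨hy, hl⟩⟩
    have h1 := Finset.card_le_card hsub
    have h2 : ∀ l : ι, ((Finset.Icc B (2 * B)).filter fun y => f l x * y + g l x ∉ V).card ≤
        (excL V δ B).ncard := by
      intro l
      obtain ⟨q1, q2, q3⟩ := hQ l x hx1 hx2
      rw [Set.ncard_eq_toFinset_card _ (excL_finite V δ B)]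
      refine Finset.card_le_card_of_injOn (fun y => f l x * y + g l x) ?_ ?_
      · intro y hy
        rw [Finset.mem_coe, Finset.mem_filter, Finset.mem_Icc] at hy
        obtain ⟨⟨h3, h4⟩, h5⟩ := hy
        rw [Finset.mem_coe, Set.Finite.mem_toFinset]
        refine ⟨?_, ?_, h5⟩
        · show B ≤ f l x * y + g l x
          nlinarith
        · refine le_trans ?_ hB2
          have h6 : f l x * y + g l x ≤ 3 * Q * B := by
            calc f l x * y + g l x ≤ Q * (2 * B) + Q * 1 := by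
                  rw [mul_one]
                  exact Nat.add_le_add (Nat.mul_le_mul q2 h4) q3
              _ ≤ Q * (2 * B) + Q * B := Nat.add_le_add_left (Nat.mul_le_mul_left _ hB) _
              _ = 3 * Q * B := by ring
          exact_mod_cast h6
      · intro y _ y' _ h
        have h7 : f l x * y + g l x = f l x * y' + g l x := h
        exact Nat.eq_of_mul_eq_mul_left q1 (Nat.add_right_cancel h7)
    have h3 := Finset.card_biUnion_le (s := (Finset.univ : Finset ι))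
      (t := fun l : ι => (Finset.Icc B (2 * B)).filter fun y => f l x * y + g l x ∉ V)
    have h4 : ∑ l : ι, ((Finset.Icc B (2 * B)).filter fun y => f l x * y + g l x ∉ V).card ≤
        Fintype.card ι * (excL V δ B).ncard := by
      calc ∑ l : ι, ((Finset.Icc B (2 * B)).filter fun y => f l x * y + g l x ∉ V).card ≤
          ∑ _l : ι, (excL V δ B).ncard := Finset.sum_le_sum fun l _ => h2 l
        _ = Fintype.card ι * (excL V δ B).ncard := by
          rw [Finset.sum_const, Finset.card_univ, smul_eq_mul]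
    rw [Nat.card_Icc] at h1
    omega
  exact ⟨x, y, hx1, hy1, hxV, hy⟩

theorem main {κ ι : Type*} [Finite κ] [Fintype ι] (f g : ι → ℕ → ℕ) (d : ℕ)
    (hf : ∀ l x, 2 ≤ x → 0 < f l x ∧ f l x ≤ x ^ d ∧ g l x ≤ x ^ d) (δ : ℝ) (hδ : 0 < δ)
    (C : ℕ) :
    ∃ R : ℕ, ∀ V : κ → Set ℕ,
      (∀ N₀ : ℕ, ∃ N₁ ≥ N₀, ∀ N, N₁ ≤ N → N ≤ N₁ ^ R → ∃ (A : ℕ) (e : κ), N ≤ A ∧ A ≤ N ^ C ∧
        (Fintype.card ι + 1) * (excL (V e) δ A).ncard ≤ A) →
      ∃ v : κ, ∀ K : ℕ, ∃ x y : ℕ, K < x ∧ K < y ∧ x ∈ V v ∧ ∀ l, f l x * y + g l x ∈ V v := by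
  classical
  have := Fintype.ofFinite κ
  set r := Fintype.card κ with hr
  obtain ⟨T, hT1, hT⟩ : ∃ T : ℕ, 1 ≤ T ∧ (((C + 1) * d + 2 : ℕ) : ℝ) ≤ T * δ := by
    refine ⟨max 1 ⌈(((C + 1) * d + 2 : ℕ) : ℝ) / δ⌉₊, le_max_left _ _, ?_⟩
    rw [← div_le_iff₀ hδ]
    exact (Nat.le_ceil _).trans (by exact_mod_cast le_max_right _ _)
  refine ⟨T ^ r, fun V hc => one_of ?_ fun K => ?_⟩
  · rintro v K K' hKK ⟨x, y, h1, h2, h3, h4⟩
    exact ⟨x, y, by omega, by omega, h3, h4⟩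
  obtain ⟨S, hS⟩ : ∃ S : ℕ, ∀ N : ℕ, S ≤ N → (2 : ℝ) ≤ (N : ℝ) ^ δ := by
    have h1 := (tendsto_rpow_atTop hδ).comp tendsto_natCast_atTop_atTop
    have h2 := h1.eventually (Filter.eventually_ge_atTop (2 : ℝ))
    obtain ⟨S, hS⟩ := Filter.eventually_atTop.1 h2
    exact ⟨S, fun N hN => hS N hN⟩
  obtain ⟨N₁, hN₁, hN⟩ := hc (max (max S 3) (K + 1))
  have b1 : S ≤ N₁ := (le_max_left _ _).trans ((le_max_left _ _).trans hN₁)
  have b2 : 3 ≤ N₁ := (le_max_right _ _).trans ((le_max_left _ _).trans hN₁)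
  have b3 : K + 1 ≤ N₁ := (le_max_right _ _).trans hN₁
  have hN₁0 : 0 < N₁ := by omega
  have hsc : ∀ j : ℕ, ∃ (A : ℕ) (e : κ), j ≤ r → N₁ ^ (T ^ j) ≤ A ∧
      A ≤ (N₁ ^ (T ^ j)) ^ C ∧ (Fintype.card ι + 1) * (excL (V e) δ A).ncard ≤ A := by
    intro j
    by_cases hj : j ≤ r
    · obtain ⟨A, e, h1, h2, h3⟩ := hN (N₁ ^ (T ^ j))
        (Nat.le_self_pow (pow_ne_zero _ (by omega)) _)
        (Nat.pow_le_pow_right hN₁0 (Nat.pow_le_pow_right (by omega) hj))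
      exact ⟨A, e, fun _ => ⟨h1, h2, h3⟩⟩
    · obtain ⟨A, e, -⟩ := hN N₁ le_rfl (Nat.le_self_pow (pow_ne_zero _ (by omega)) _)
      exact ⟨A, e, fun h => absurd h hj⟩
  choose A e hAe using hsc
  obtain ⟨i, hi, j, hj, hij, he⟩ : ∃ i ∈ Finset.range (r + 1), ∃ j ∈ Finset.range (r + 1),
      i < j ∧ e i = e j := by
    have hcard : (Finset.univ : Finset κ).card < (Finset.range (r + 1)).card := by
      rw [Finset.card_range, Finset.card_univ]
      omega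
    obtain ⟨i, hi, j, hj, hne, he⟩ := Finset.exists_ne_map_eq_of_card_lt_of_maps_to hcard
      (f := e) (fun _ _ => Finset.mem_coe.2 (Finset.mem_univ _))
    rcases lt_or_gt_of_ne hne with h | h
    · exact ⟨i, hi, j, hj, h, he⟩
    · exact ⟨j, hj, i, hi, h, he.symm⟩
  have hi' : i ≤ r := by have := Finset.mem_range.1 hi; omega
  have hj' : j ≤ r := by have := Finset.mem_range.1 hj; omega
  obtain ⟨u1, u2, u3⟩ := hAe i hi'
  obtain ⟨v1, v2, v3⟩ := hAe j hj'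
  rw [← he] at v3
  set N := N₁ ^ (T ^ i) with hNdef
  have hNN : N₁ ≤ N := Nat.le_self_pow (pow_ne_zero _ (by omega)) _
  have hN3 : 3 ≤ N := b2.trans hNN
  have hNT : N ^ T ≤ A j := by
    refine le_trans ?_ v1
    rw [hNdef, ← pow_mul, ← pow_succ]
    exact Nat.pow_le_pow_right hN₁0 (Nat.pow_le_pow_right (by omega) (by omega))
  have hNAj : N ≤ A j := le_trans (Nat.le_self_pow (by omega) _) hNT
  have hAi0 : 0 < A i := by omega
  have hAj0 : 0 < A j := by omega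
  have hAir : (0 : ℝ) < A i := by exact_mod_cast hAi0
  have hAjr : (0 : ℝ) < A j := by exact_mod_cast hAj0
  -- `Q`
  have hxN : ∀ x, x ≤ 2 * A i → x ≤ N ^ (C + 1) := by
    intro x hx
    calc x ≤ 2 * A i := hx
      _ ≤ N * N ^ C := Nat.mul_le_mul (by omega) u2
      _ = N ^ (C + 1) := by ring
  obtain ⟨x, y, k1, k2, k3, k4⟩ := pairL f g (V (e i)) (A := A i) (B := A j)
    (Q := N ^ ((C + 1) * d)) (δ := δ) hAi0
    (by
      intro l x hx1 hx2
      obtain ⟨h1, h2, h3⟩ := hf l x (by omega)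
      have h4 : x ^ d ≤ N ^ ((C + 1) * d) := by
        rw [pow_mul]
        exact Nat.pow_le_pow_left (hxN x hx2) d
      exact ⟨h1, h2.trans h4, h3.trans h4⟩)
    (by
      rw [Real.rpow_add hAir, Real.rpow_one]
      have := hS (A i) (b1.trans (hNN.trans u1))
      nlinarith)
    hAj0
    (by
      rw [Real.rpow_add hAjr, Real.rpow_one]
      have hNr : (1 : ℝ) ≤ N := by exact_mod_cast (by omega : 1 ≤ N)
      have hN0r : (0 : ℝ) ≤ N := by linarith
      have h1 : (3 : ℝ) * ((N ^ ((C + 1) * d) : ℕ) : ℝ) ≤ (A j : ℝ) ^ δ := by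
        have h2 : (3 : ℝ) * ((N ^ ((C + 1) * d) : ℕ) : ℝ) ≤ (N : ℝ) ^ ((C + 1) * d + 2) := by
          have h3 : 3 * N ^ ((C + 1) * d) ≤ N ^ ((C + 1) * d + 2) := by
            calc 3 * N ^ ((C + 1) * d) ≤ N * N ^ ((C + 1) * d) := Nat.mul_le_mul_right _ hN3
              _ = N ^ ((C + 1) * d + 1) := by ring
              _ ≤ N ^ ((C + 1) * d + 2) := Nat.pow_le_pow_right (by omega) (by omega)
          exact_mod_cast h3
        refine h2.trans ?_
        calc (N : ℝ) ^ ((C + 1) * d + 2) = (N : ℝ) ^ (((C + 1) * d + 2 : ℕ) : ℝ) :=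
              (Real.rpow_natCast _ _).symm
          _ ≤ (N : ℝ) ^ ((T : ℝ) * δ) := Real.rpow_le_rpow_of_exponent_le hNr hT
          _ = ((N : ℝ) ^ T) ^ δ := by rw [Real.rpow_mul hN0r, Real.rpow_natCast]
          _ ≤ (A j : ℝ) ^ δ := Real.rpow_le_rpow (by positivity) (by exact_mod_cast hNT) hδ.le
      calc (3 * ((N ^ ((C + 1) * d) : ℕ) : ℝ) * (A j : ℝ)) ≤ (A j : ℝ) ^ δ * (A j : ℝ) := by
            gcongr
        _ = (A j : ℝ) * (A j : ℝ) ^ δ := mul_comm _ _)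
    (by nlinarith) (by nlinarith)
  exact ⟨e i, x, y, by omega, by omega, k3, k4⟩

end Pool.Agent.Run7.h476.LS
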